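import Mathlib

namespace Pool.Agent.Results.MP_7d9a72_al.NilpotentTwelve

universe u v

/-- The Jordan identity of a commutative algebra. -/
def JordanIdentity (J : Type u) [NonUnitalNonAssocCommRing J] : Prop :=
  ∀ x y : J, ((x * x) * y) * x = (x * x) * (y * x)

/-- `J` is special (with respect to associative algebras living in universe `v`): there are an
associative (not necessarily unital) `F`-algebra `A` and an injective `F`-linear map `f : J → A`
with `f (x y) = 1/2 (f x f y + f y f x)`. -/
def IsSpecial (F : Type u) [Field F] (J : Type u) [NonUnitalNonAssocCommRing J] [Module F J] :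
    Prop :=
  ∃ (A : Type v) (_ : NonUnitalRing A) (_ : Module F A) (_ : IsScalarTower F A A)
    (_ : SMulCommClass F A A) (f : J →ₗ[F] A), Function.Injective f ∧
      ∀ x y : J, f (x * y) = (2 : F)⁻¹ • (f x * f y + f y * f x)

/-- The underlying space of the example. -/
def E (F : Type u) : Type u := Fin 12 → F

namespace E

variable {F : Type u} [Field F]

instance : AddCommGroup (E F) := inferInstanceAs (AddCommGroup (Fin 12 → F))
instance : Module F (E F) := inferInstanceAs (Module F (Fin 12 → F))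

/-- The product. With basis `z,y,x,a,b,s,p,r,t,c,w,v` the nonzero products of basis elements are
`zz=a, yy=b, xz=s, ya=p, zb=r, ys=t, xb=c, zt=w, xp=-2w, yw=v, ac=4v, sr=-2v`. -/
def mulE (f g : E F) : E F :=
  ![0, 0, 0, f 0 * g 0, f 1 * g 1, f 2 * g 0 + f 0 * g 2, f 1 * g 3 + f 3 * g 1,
    f 0 * g 4 + f 4 * g 0, f 1 * g 5 + f 5 * g 1, f 2 * g 4 + f 4 * g 2,
    (f 0 * g 8 + f 8 * g 0) - 2 * (f 2 * g 6 + f 6 * g 2),
    (f 1 * g 10 + f 10 * g 1) + 4 * (f 3 * g 9 + f 9 * g 3) - 2 * (f 5 * g 7 + f 7 * g 5)]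

theorem add_ap (f g : E F) (i : Fin 12) : (f + g) i = f i + g i := rfl
theorem zero_ap (i : Fin 12) : (0 : E F) i = 0 := rfl
theorem smul_ap (c : F) (f : E F) (i : Fin 12) : (c • f) i = c * f i := rfl

omit [Field F] in
theorem ext12 {f g : E F} (h0 : f 0 = g 0) (h1 : f 1 = g 1) (h2 : f 2 = g 2) (h3 : f 3 = g 3)
    (h4 : f 4 = g 4) (h5 : f 5 = g 5) (h6 : f 6 = g 6) (h7 : f 7 = g 7) (h8 : f 8 = g 8)
    (h9 : f 9 = g 9) (h10 : f 10 = g 10) (h11 : f 11 = g 11) : f = g := by
  funext i
  fin_cases i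
  · exact h0
  · exact h1
  · exact h2
  · exact h3
  · exact h4
  · exact h5
  · exact h6
  · exact h7
  · exact h8
  · exact h9
  · exact h10
  · exact h11

section ap
variable (f g : E F)
theorem m0 : mulE f g 0 = 0 := rfl
theorem m1 : mulE f g 1 = 0 := rfl
theorem m2 : mulE f g 2 = 0 := rfl
theorem m3 : mulE f g 3 = f 0 * g 0 := rfl
theorem m4 : mulE f g 4 = f 1 * g 1 := rfl
theorem m5 : mulE f g 5 = f 2 * g 0 + f 0 * g 2 := rfl
theorem m6 : mulE f g 6 = f 1 * g 3 + f 3 * g 1 := rfl
theorem m7 : mulE f g 7 = f 0 * g 4 + f 4 * g 0 := rfl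
theorem m8 : mulE f g 8 = f 1 * g 5 + f 5 * g 1 := rfl
theorem m9 : mulE f g 9 = f 2 * g 4 + f 4 * g 2 := rfl
theorem m10 : mulE f g 10 = (f 0 * g 8 + f 8 * g 0) - 2 * (f 2 * g 6 + f 6 * g 2) := rfl
theorem m11 : mulE f g 11 = (f 1 * g 10 + f 10 * g 1) + 4 * (f 3 * g 9 + f 9 * g 3)
    - 2 * (f 5 * g 7 + f 7 * g 5) := rfl
end ap

instance : NonUnitalNonAssocCommRing (E F) :=
  { (inferInstance : AddCommGroup (E F)) with
    mul := mulE
    left_distrib := by
      intro f g h
      change mulE f (g + h) = mulE f g + mulE f h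
      apply ext12 <;>
      simp only [m0, m1, m2, m3, m4, m5, m6, m7, m8, m9, m10, m11, add_ap] <;> ring
    right_distrib := by
      intro f g h
      change mulE (f + g) h = mulE f h + mulE g h
      apply ext12 <;>
      simp only [m0, m1, m2, m3, m4, m5, m6, m7, m8, m9, m10, m11, add_ap] <;> ring
    zero_mul := by
      intro f
      change mulE 0 f = 0
      apply ext12 <;>
      simp only [m0, m1, m2, m3, m4, m5, m6, m7, m8, m9, m10, m11, zero_ap] <;> ring
    mul_zero := by
      intro f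
      change mulE f 0 = 0
      apply ext12 <;>
      simp only [m0, m1, m2, m3, m4, m5, m6, m7, m8, m9, m10, m11, zero_ap] <;> ring
    mul_comm := by
      intro f g
      change mulE f g = mulE g f
      apply ext12 <;>
      simp only [m0, m1, m2, m3, m4, m5, m6, m7, m8, m9, m10, m11] <;> ring }

theorem mul_def (f g : E F) : f * g = mulE f g := rfl

instance : IsScalarTower F (E F) (E F) := by
  constructor
  intro c f g
  simp only [smul_eq_mul, mul_def]
  apply ext12 <;>
  simp only [m0, m1, m2, m3, m4, m5, m6, m7, m8, m9, m10, m11, smul_ap] <;> ring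

instance : SMulCommClass F (E F) (E F) := by
  constructor
  intro c f g
  simp only [smul_eq_mul, mul_def]
  apply ext12 <;>
  simp only [m0, m1, m2, m3, m4, m5, m6, m7, m8, m9, m10, m11, smul_ap] <;> ring

theorem jordan : JordanIdentity (E F) := by
  intro f g
  simp only [mul_def]
  apply ext12 <;>
  simp only [m0, m1, m2, m3, m4, m5, m6, m7, m8, m9, m10, m11] <;> ring

/-- The basis vectors. -/
def bas (F : Type u) [Field F] (i : Fin 12) : E F := fun j => if j = i then 1 else 0

theorem bas_ap (i j : Fin 12) : bas F i j = if j = i then 1 else 0 := rfl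

end E

section assoc

variable {F : Type u} [Field F] {A : Type v} [NonUnitalRing A] [Module F A]
  [IsScalarTower F A A] [SMulCommClass F A A]

omit [IsScalarTower F A A] [SMulCommClass F A A] in
theorem two_cancel (h2 : (2 : F) ≠ 0) {t : A} (h : t + t = 0) : t = 0 := by
  have : (2 : F) • t = 0 := by rw [two_smul]; exact h
  exact (smul_eq_zero.mp this).resolve_left h2

/-- The quasi-identity which holds in all special Jordan algebras and fails in the example. -/
theorem key (h2 : (2 : F) ≠ 0) (X Y Z B C P W V : A)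
    (hxy : X * Y + Y * X = 0) (hyz : Y * Z + Z * Y = 0)
    (hC : Z * Z + Z * Z = (2 : F) • C) (hB : Y * Y + Y * Y = (2 : F) • B)
    (hCB : C * B + B * C = 0) (hP : Y * C + C * Y = (2 : F) • P)
    (hW : X * P + P * X = (2 : F) • ((-2 : F) • W))
    (hV : Y * W + W * Y = (2 : F) • V) : V = 0 := by
  have hinj : ∀ {s t : A}, s + s = (2 : F) • t → t = s := by
    intro s t h
    rw [← two_smul F s] at h
    have : (2 : F) • (t - s) = 0 := by rw [smul_sub, ← h, sub_self]
    exact sub_eq_zero.mp ((smul_eq_zero.mp this).resolve_left h2)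
  have hC' : C = Z * Z := hinj hC
  have hB' : B = Y * Y := hinj hB
  have e1 : Y * X = -(X * Y) := eq_neg_of_add_eq_zero_right hxy
  have e2 : Z * Y = -(Y * Z) := eq_neg_of_add_eq_zero_right hyz
  have e3 : C * Y = Y * C := by
    rw [hC', mul_assoc, e2, mul_neg, ← mul_assoc, e2, neg_mul, neg_neg, mul_assoc]
  have e4 : Y * (Y * C) = 0 := by
    apply two_cancel h2
    have : C * B = Y * (Y * C) := by
      rw [hB', ← mul_assoc, e3, mul_assoc, e3]
    have h' : B * C = Y * (Y * C) := by rw [hB', mul_assoc]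
    rw [← hCB, this, h']
  have hP' : P = Y * C := by
    apply hinj
    rw [← hP, e3]
  have yp : Y * P = 0 := by rw [hP']; exact e4
  have py : P * Y = 0 := by rw [hP', mul_assoc, e3]; exact e4
  have h8 : Y * (X * P + P * X) + (X * P + P * X) * Y = 0 := by
    have a1 : Y * (X * P) = 0 := by
      rw [← mul_assoc, e1, neg_mul, mul_assoc, yp, mul_zero, neg_zero]
    have a2 : Y * (P * X) = 0 := by rw [← mul_assoc, yp, zero_mul]
    have a3 : X * P * Y = 0 := by rw [mul_assoc, py, mul_zero]
    have a4 : P * X * Y = 0 := by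
      have : X * Y = -(Y * X) := by rw [e1, neg_neg]
      rw [mul_assoc, this, mul_neg, ← mul_assoc, py, zero_mul, neg_zero]
    rw [mul_add, add_mul, a1, a2, a3, a4]
    simp
  rw [hW, mul_smul_comm, mul_smul_comm, smul_mul_assoc, smul_mul_assoc, ← smul_add, ← smul_add,
    hV, smul_smul, smul_smul] at h8
  refine (smul_eq_zero.mp h8).resolve_left ?_
  have : (2 : F) * (-2) * 2 = -(2 * 2 * 2) := by ring
  rw [this]
  exact neg_ne_zero.mpr (mul_ne_zero (mul_ne_zero h2 h2) h2)

end assoc

theorem not_special {F : Type u} [Field F] (h2 : (2 : F) ≠ 0) :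
    ¬ IsSpecial.{u, v} F (E F) := by
  rintro ⟨A, _, _, _, _, f, hinj, hf⟩
  have hmul : ∀ x y : E F, f x * f y + f y * f x = (2 : F) • f (x * y) := by
    intro x y
    rw [hf, smul_smul, mul_inv_cancel₀ h2, one_smul]
  let e := E.bas F
  have mulb : ∀ i j k : Fin 12, e i * e j = e k → f (e i) * f (e j) + f (e j) * f (e i)
      = (2 : F) • f (e k) := by
    intro i j k h
    rw [hmul, h]
  have mul0 : ∀ i j : Fin 12, e i * e j = 0 → f (e i) * f (e j) + f (e j) * f (e i) = 0 := by
    intro i j h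
    rw [hmul, h, map_zero, smul_zero]
  have hv : f (e 11) = 0 := by
    refine key (F := F) h2 (f (e 2)) (f (e 1)) (f (e 0)) (f (e 4)) (f (e 3)) (f (e 6))
      (f (e 10)) (f (e 11)) (mul0 2 1 ?_) (mul0 1 0 ?_) (mulb 0 0 3 ?_) (mulb 1 1 4 ?_)
      (mul0 3 4 ?_) (mulb 1 3 6 ?_) ?_ (mulb 1 10 11 ?_)
    case refine_7 =>
      have h26 : e 2 * e 6 = (-2 : F) • e 10 := by
        rw [E.mul_def]
        apply E.ext12 <;>
        simp [E.m0, E.m1, E.m2, E.m3, E.m4, E.m5, E.m6, E.m7, E.m8, E.m9, E.m10, E.m11, e,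
          E.bas_ap, E.smul_ap]
      rw [hmul, h26, map_smul]
    all_goals
      rw [E.mul_def]
      apply E.ext12 <;>
      simp [E.m0, E.m1, E.m2, E.m3, E.m4, E.m5, E.m6, E.m7, E.m8, E.m9, E.m10, E.m11, e,
        E.bas_ap, E.zero_ap]
  have h0 : e 11 = 0 := hinj (by rw [hv, map_zero])
  have h1 : e 11 11 = (0 : E F) 11 := by rw [h0]
  simp [e, E.bas_ap, E.zero_ap] at h1

/-- `InPower F J n x` says that `x` lies in `J^n`, where `J^1 = J` and, for `n ≥ 2`, `J^n` is the
sum of the products `J^i J^j` with `i + j = n`, `i, j ≥ 1` (the `F`-span of the products `x y` with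
`x` in `J^i` and `y` in `J^j`). -/
inductive InPower (F : Type u) [Field F] (J : Type u) [NonUnitalNonAssocCommRing J] [Module F J] :
    ℕ → J → Prop
  | one (x : J) : InPower F J 1 x
  | mul (i j : ℕ) (hi : 1 ≤ i) (hj : 1 ≤ j) (x y : J) :
      InPower F J i x → InPower F J j y → InPower F J (i + j) (x * y)
  | add (n : ℕ) (x y : J) : InPower F J n x → InPower F J n y → InPower F J n (x + y)
  | smul (n : ℕ) (c : F) (x : J) : InPower F J n x → InPower F J n (c • x)

/-- `J` is nilpotent: `J^n = 0` for some `n ≥ 1`. -/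
def IsNilpotentAlg (F : Type u) [Field F] (J : Type u) [NonUnitalNonAssocCommRing J]
    [Module F J] : Prop :=
  ∃ n : ℕ, 1 ≤ n ∧ ∀ x : J, InPower F J n x → x = 0

namespace E

variable {F : Type u} [Field F]

/-- The weights of the twelve basis vectors. -/
def wt : Fin 12 → ℕ := ![1, 1, 1, 2, 2, 2, 3, 3, 3, 3, 4, 5]

/-- the elements all of whose components have weight at least `n` -/
def Fil (n : ℕ) (f : E F) : Prop := ∀ k : Fin 12, wt k < n → f k = 0

theorem fil_mul_aux {i j a b : ℕ} {s t : F} (h : a + b < i + j) (hs : a < i → s = 0)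
    (ht : b < j → t = 0) : s * t = 0 := by
  rcases Nat.lt_or_ge a i with h1 | h1
  · rw [hs h1, zero_mul]
  · rw [ht (by omega), mul_zero]

theorem fil_mul {i j : ℕ} {f g : E F} (hi : Fil i f) (hj : Fil j g) :
    Fil (i + j) (f * g) := by
  have key : ∀ a b : Fin 12, wt a + wt b < i + j → f a * g b = 0 := fun a b h =>
    fil_mul_aux h (hi a) (hj b)
  intro k hk
  rw [mul_def]
  fin_cases k
  · exact m0 f g
  · exact m1 f g
  · exact m2 f g
  · refine (m3 f g).trans ?_
    rw [key 0 0 hk]
  · refine (m4 f g).trans ?_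
    rw [key 1 1 hk]
  · refine (m5 f g).trans ?_
    rw [key 2 0 hk, key 0 2 hk, add_zero]
  · refine (m6 f g).trans ?_
    rw [key 1 3 hk, key 3 1 hk, add_zero]
  · refine (m7 f g).trans ?_
    rw [key 0 4 hk, key 4 0 hk, add_zero]
  · refine (m8 f g).trans ?_
    rw [key 1 5 hk, key 5 1 hk, add_zero]
  · refine (m9 f g).trans ?_
    rw [key 2 4 hk, key 4 2 hk, add_zero]
  · refine (m10 f g).trans ?_
    rw [key 0 8 hk, key 8 0 hk, key 2 6 hk, key 6 2 hk]
    ring
  · refine (m11 f g).trans ?_
    rw [key 1 10 hk, key 10 1 hk, key 3 9 hk, key 9 3 hk, key 5 7 hk, key 7 5 hk]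
    ring

theorem fil_of_inPower {n : ℕ} {x : E F} (h : InPower F (E F) n x) : Fil n x := by
  induction h with
  | one x =>
    intro k hk
    fin_cases k <;> simp [wt] at hk
  | mul i j _ _ x y _ _ hx hy => exact fil_mul hx hy
  | add n x y _ _ hx hy =>
    intro k hk
    rw [add_ap, hx k hk, hy k hk, add_zero]
  | smul n c x _ hx =>
    intro k hk
    rw [smul_ap, hx k hk, mul_zero]

theorem nilpotent : IsNilpotentAlg F (E F) := by
  refine ⟨6, by norm_num, fun x hx => ?_⟩
  have h := fil_of_inPower hx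
  apply ext12 <;> exact h _ (by decide)

end E

/-- Over every field of characteristic different from `2` there is a nilpotent non-special Jordan
algebra of dimension `12`. -/
theorem result (F : Type u) [Field F] (h2 : (2 : F) ≠ 0) :
    ∃ (J : Type u) (_ : NonUnitalNonAssocCommRing J) (_ : Module F J) (_ : IsScalarTower F J J)
      (_ : SMulCommClass F J J),
      Module.finrank F J = 12 ∧ JordanIdentity J ∧ IsNilpotentAlg F J ∧
        ¬ IsSpecial.{u, v} F J := by
  refine ⟨E F, inferInstance, inferInstance, inferInstance, inferInstance, ?_, E.jordan,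
    E.nilpotent, not_special h2⟩
  change Module.finrank F (Fin 12 → F) = 12
  simp

end Pool.Agent.Results.MP_7d9a72_al.NilpotentTwelve
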